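import Mathlib
import Pool.Agent.R425.MK.Lim
import Pool.Agent.TH876.GR.Fin

/-!
# Integers of a number field near the multiples of a point of Minkowski space: the covering argument
-/

set_option autoImplicit false

namespace Pool.Agent.Helper932MA

open NumberField IsDedekindDomain MeasureTheory Filter Topology
open scoped ENNReal NNReal Classical

variable {K : Type} [Field K] [NumberField K]

/-- the number of the indices with `lam n ≤ B` -/
theorem count_lam (lam : ℕ → ℝ) (h1 : ∀ n, 1 ≤ lam n) {δ : ℝ} (hδ : 0 < δ)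
    (hs : Summable fun n => lam n ^ (-δ)) : ∃ C : ℝ, 0 ≤ C ∧ ∀ B : ℝ, 1 ≤ B →
      {n | lam n ≤ B}.Finite ∧ (({n | lam n ≤ B}.ncard : ℕ) : ℝ) ≤ C * B ^ δ := by
  have hp : ∀ n, 0 < lam n := fun n => lt_of_lt_of_le one_pos (h1 n)
  refine ⟨∑' n, lam n ^ (-δ), tsum_nonneg fun n => Real.rpow_nonneg (hp n).le _, fun B hB => ?_⟩
  have hB0 : 0 < B := by linarith
  have key : ∀ F : Finset ℕ, (∀ n ∈ F, lam n ≤ B) →
      (F.card : ℝ) ≤ (∑' n, lam n ^ (-δ)) * B ^ δ := by
    intro F hF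
    have h2 : (F.card : ℝ) * B ^ (-δ) ≤ ∑ n ∈ F, lam n ^ (-δ) := by
      rw [← nsmul_eq_mul, ← Finset.sum_const]
      refine Finset.sum_le_sum fun n hn => ?_
      exact Real.rpow_le_rpow_of_nonpos (hp n) (hF n hn) (by linarith)
    have h3 := h2.trans (hs.sum_le_tsum F fun n _ => Real.rpow_nonneg (hp n).le _)
    have h4 : B ^ (-δ) * B ^ δ = 1 := by
      rw [← Real.rpow_add hB0, neg_add_cancel, Real.rpow_zero]
    calc (F.card : ℝ) = (F.card : ℝ) * B ^ (-δ) * B ^ δ := by rw [mul_assoc, h4, mul_one]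
      _ ≤ _ := mul_le_mul_of_nonneg_right h3 (Real.rpow_nonneg hB0.le _)
  have hfin : {n | lam n ≤ B}.Finite := by
    by_contra hinf
    obtain ⟨G, hG, hGc⟩ := Set.Infinite.exists_subset_card_eq hinf
      (⌊(∑' n, lam n ^ (-δ)) * B ^ δ⌋₊ + 1)
    have h5 := key G fun n hn => hG hn
    have h6 := Nat.lt_floor_add_one ((∑' n, lam n ^ (-δ)) * B ^ δ)
    rw [hGc] at h5
    push_cast at h5
    linarith
  refine ⟨hfin, ?_⟩
  rw [Set.ncard_eq_toFinset_card _ hfin]
  exact key _ fun n hn => by simpa using hn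

/-- the archimedean absolute values are bounded by the norm -/
theorem place_le (x : K) (w : InfinitePlace K) : w x ≤ ‖mixedEmbedding K x‖ := by
  classical
  rw [mixedEmbedding.norm_eq_sup'_normAtPlace, ← mixedEmbedding.normAtPlace_apply]
  exact Finset.le_sup' (fun w => mixedEmbedding.normAtPlace w (mixedEmbedding K x))
    (Finset.mem_univ w)

/-- the height of an integer -/
theorem height_le (x : 𝓞 K) {R : ℝ} (hR : 1 ≤ R) (h : ‖mixedEmbedding K (x : K)‖ ≤ R) :
    Height.logHeight₁ (x : K) ≤ (Module.finrank ℚ K : ℝ) * Real.log R := by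
  have hfinite : ∀ v : FinitePlace K, v (x : K) ≤ 1 := fun v => by
    rw [← FinitePlace.norm_embedding_eq v]
    exact FinitePlace.norm_le_one K v.maximalIdeal x
  have hR0 : 0 < R := by linarith
  rw [NumberField.logHeight₁_eq]
  have h2 : ∑ᶠ v : FinitePlace K, Real.posLog (v (x : K)) = 0 := by
    rw [← finsum_zero (α := FinitePlace K)]
    refine finsum_congr fun v => ?_
    exact (Real.posLog_eq_zero_iff _).mpr (by rw [abs_of_nonneg (apply_nonneg v _)]; exact hfinite v)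
  rw [h2, add_zero]
  have h3 : (Module.finrank ℚ K : ℝ) = ∑ w : InfinitePlace K, (w.mult : ℝ) := by
    rw [← InfinitePlace.sum_mult_eq]
    push_cast
    rfl
  rw [h3, Finset.sum_mul]
  refine Finset.sum_le_sum fun w _ => ?_
  refine mul_le_mul_of_nonneg_left ?_ (Nat.cast_nonneg _)
  rw [Real.posLog_def]
  refine max_le (Real.log_nonneg hR) ?_
  rcases (apply_nonneg w (x : K)).eq_or_lt with h4 | h4
  · rw [← h4]
    simpa using Real.log_nonneg hR
  · exact Real.log_le_log h4 ((place_le _ w).trans h)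


open Pool.Agent.TH876.GR (counting Points)

variable (K) in
theorem dpos : 0 < (Module.finrank ℚ K : ℝ) := by
  exact_mod_cast Module.finrank_pos

/-- the bad pairs in a bounded region -/
abbrev Idx {q : ℕ} (a : Fin q → K) (lam : ℕ → ℝ) (t : ℝ) (S : Set (HeightOneSpectrum (𝓞 K)))
    (M c : ℝ) : Type :=
  {p : ℕ × 𝓞 K // ‖mixedEmbedding K (p.2 : K)‖ ≤ M * lam p.1 ∧ (∀ i, (p.2 : K) ≠ a i) ∧
    counting S a (p.2 : K) ≤ t * ((Module.finrank ℚ K : ℝ) * Real.log (M * lam p.1)) + c}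

/-- the hypothesis: the count of integral points -/
def HCount (K : Type) [Field K] [NumberField K] : Prop :=
  ∀ (S : Set (HeightOneSpectrum (𝓞 K))), S.Finite → ∀ (q : ℕ), 2 ≤ q → ∀ (a : Fin q → K),
    Function.Injective a → ∀ ε : ℝ, 0 < ε →
    ∃ C : ℝ, ∀ X H : ℝ, 1 ≤ X → 1 ≤ H → (Points S a X H).Finite ∧
      ((Points S a X H).ncard : ℝ) ≤ C * H * X ^ (1 / (q : ℝ) + ε)

theorem idx_count (hc : HCount K) {q : ℕ} (hq : 2 ≤ q) (a : Fin q → K)
    (ha : Function.Injective a) (lam : ℕ → ℝ) (h1 : ∀ n, 1 ≤ lam n)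
    (hlam : ∀ δ : ℝ, 0 < δ → Summable fun n => lam n ^ (-δ)) {t : ℝ} (ht : 0 ≤ t)
    (S : Set (HeightOneSpectrum (𝓞 K))) (hS : S.Finite) {M c : ℝ} (hM : 1 ≤ M) (hc0 : 0 ≤ c)
    (ε : ℝ) (hε : 0 < ε) : ∃ C : ℝ, ∀ B : ℝ, 1 ≤ B →
      {i : Idx a lam t S M c | lam i.1.1 ≤ B}.Finite ∧
      (({i : Idx a lam t S M c | lam i.1.1 ≤ B}.ncard : ℕ) : ℝ) ≤
        C * B ^ ((Module.finrank ℚ K : ℝ) * t / q + ε) := by
  set d : ℝ := (Module.finrank ℚ K : ℝ) with hd
  have hd0 : 0 < d := dpos K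
  have hq0 : (0 : ℝ) < q := by exact_mod_cast (by omega : 0 < q)
  have htd : 0 ≤ t * d := mul_nonneg ht hd0.le
  set ε1 : ℝ := ε / (3 * (t * d + 1)) with hε1
  have hε10 : 0 < ε1 := by positivity
  obtain ⟨C1, hC1⟩ := hc S hS q hq a ha ε1 hε10
  obtain ⟨C3, hC30, hC3⟩ := count_lam lam h1 (δ := ε / 3) (by positivity) (hlam _ (by positivity))
  set e : ℝ := 1 / (q : ℝ) + ε1 with he
  have he0 : 0 ≤ e := by positivity
  set C2 : ℝ := 1 + d * Real.log M + d * (3 / ε) with hC2
  have hC20 : 0 ≤ C2 := by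
    have := Real.log_nonneg hM
    positivity
  set C4 : ℝ := (Real.exp c * M ^ (t * d)) ^ e with hC4
  have hM0 : 0 < M := by linarith
  have hC40 : 0 ≤ C4 := by positivity
  refine ⟨C3 * (max C1 0 * C2 * C4), fun B hB => ?_⟩
  have hB0 : 0 < B := by linarith
  have hMB : 1 ≤ M * B := by nlinarith
  have hMB0 : 0 < M * B := by linarith
  have hlog : 0 ≤ Real.log (M * B) := Real.log_nonneg hMB
  set H : ℝ := 1 + d * Real.log (M * B) with hH
  have hH1 : 1 ≤ H := by
    have := mul_nonneg hd0.le hlog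
    linarith
  set X : ℝ := Real.exp (t * (d * Real.log (M * B)) + c) with hX
  have hX1 : 1 ≤ X := Real.one_le_exp (by positivity)
  obtain ⟨hPf, hPc⟩ := hC1 X H hX1 hH1
  obtain ⟨hLf, hLc⟩ := hC3 B hB
  -- the embedding
  set f : Idx a lam t S M c → ℕ × K := fun i => (i.1.1, (i.1.2 : K)) with hf
  have hfinj : Function.Injective f := by
    rintro ⟨⟨n, x⟩, hx⟩ ⟨⟨m, y⟩, hy⟩ hxy
    have e1 : n = m := congrArg Prod.fst hxy
    have e2 : (x : K) = (y : K) := congrArg Prod.snd hxy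
    have e3 : x = y := RingOfIntegers.ext e2
    subst e1
    subst e3
    rfl
  have hsub : f '' {i : Idx a lam t S M c | lam i.1.1 ≤ B} ⊆
      {n | lam n ≤ B} ×ˢ Points S a X H := by
    rintro _ ⟨⟨⟨n, x⟩, hx1, hx2, hx3⟩, hi, rfl⟩
    have hi' : lam n ≤ B := hi
    have hl0 : 0 < lam n := lt_of_lt_of_le one_pos (h1 n)
    have hle : M * lam n ≤ M * B := mul_le_mul_of_nonneg_left hi' hM0.le
    have hloge : Real.log (M * lam n) ≤ Real.log (M * B) :=
      Real.log_le_log (mul_pos hM0 hl0) hle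
    refine ⟨hi', fun v _ => ?_, hx2, ?_, ?_⟩
    · exact v.valuation_le_one x
    · rw [hX]
      refine Real.exp_le_exp.mpr (hx3.trans ?_)
      have := mul_le_mul_of_nonneg_left (mul_le_mul_of_nonneg_left hloge hd0.le) ht
      linarith
    · have := height_le x hMB (hx1.trans hle)
      show Height.logHeight₁ (x : K) ≤ H
      linarith
  have hfinite : {i : Idx a lam t S M c | lam i.1.1 ≤ B}.Finite :=
    Set.Finite.of_finite_image ((hLf.prod hPf).subset hsub) hfinj.injOn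
  refine ⟨hfinite, ?_⟩
  have hcard : {i : Idx a lam t S M c | lam i.1.1 ≤ B}.ncard ≤
      {n | lam n ≤ B}.ncard * (Points S a X H).ncard := by
    rw [← Set.ncard_image_of_injective _ hfinj, ← Set.ncard_prod]
    exact Set.ncard_le_ncard hsub (hLf.prod hPf)
  have hHle : H ≤ C2 * B ^ (ε / 3) := by
    have g1 : Real.log B ≤ B ^ (ε / 3) / (ε / 3) := Real.log_le_rpow_div hB0.le (by positivity)
    have g2 : 1 ≤ B ^ (ε / 3) := Real.one_le_rpow hB (by positivity)
    have g3 : Real.log (M * B) = Real.log M + Real.log B := Real.log_mul hM0.ne' hB0.ne'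
    have g4 : B ^ (ε / 3) / (ε / 3) = 3 / ε * B ^ (ε / 3) := by
      field_simp
    rw [g4] at g1
    have g5 := Real.log_nonneg hM
    rw [hH, g3, hC2]
    have g6 : d * Real.log B ≤ d * (3 / ε * B ^ (ε / 3)) := mul_le_mul_of_nonneg_left g1 hd0.le
    have g7 : d * Real.log M ≤ d * Real.log M * B ^ (ε / 3) :=
      le_mul_of_one_le_right (by positivity) g2
    nlinarith
  have hXle : X ^ e ≤ C4 * B ^ (d * t / q + ε / 3) := by
    have g1 : X = Real.exp c * M ^ (t * d) * B ^ (t * d) := by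
      rw [hX, Real.exp_add, mul_comm, mul_assoc, ← Real.mul_rpow hM0.le hB0.le,
        Real.rpow_def_of_pos hMB0]
      congr 2
      ring
    rw [g1, Real.mul_rpow (by positivity) (by positivity), ← hC4, ← Real.rpow_mul hB0.le]
    refine mul_le_mul_of_nonneg_left (Real.rpow_le_rpow_of_exponent_le hB ?_) hC40
    rw [he, mul_add]
    have g2 : t * d * (1 / (q : ℝ)) = d * t / q := by
      field_simp
    have g3 : t * d * ε1 ≤ ε / 3 := by
      rw [hε1, mul_div_assoc', div_le_div_iff₀ (by positivity) (by norm_num)]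
      nlinarith
    linarith
  have hPc' : ((Points S a X H).ncard : ℝ) ≤ max C1 0 * C2 * C4 * B ^ (d * t / q + 2 * ε / 3) := by
    refine hPc.trans ?_
    have g0 : C1 * H * X ^ e ≤ max C1 0 * H * X ^ e := by
      have : 0 ≤ H * X ^ e := by positivity
      nlinarith [le_max_left C1 0]
    refine g0.trans ?_
    have g1 : max C1 0 * H * X ^ e ≤ max C1 0 * (C2 * B ^ (ε / 3)) * (C4 * B ^ (d * t / q + ε / 3)) := by
      have h0 : (0:ℝ) ≤ max C1 0 := le_max_right _ _
      gcongr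
    refine g1.trans (le_of_eq ?_)
    have g2 : B ^ (d * t / q + 2 * ε / 3) = B ^ (ε / 3) * B ^ (d * t / q + ε / 3) := by
      rw [← Real.rpow_add hB0]
      congr 1
      ring
    rw [g2]
    ring
  calc (({i : Idx a lam t S M c | lam i.1.1 ≤ B}.ncard : ℕ) : ℝ)
      ≤ (({n | lam n ≤ B}.ncard : ℕ) : ℝ) * ((Points S a X H).ncard : ℝ) := by exact_mod_cast hcard
    _ ≤ (C3 * B ^ (ε / 3)) * (max C1 0 * C2 * C4 * B ^ (d * t / q + 2 * ε / 3)) := by
        have : (0:ℝ) ≤ max C1 0 := le_max_right _ _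
        gcongr
    _ = _ := by
        have g2 : B ^ (d * t / q + ε) = B ^ (ε / 3) * B ^ (d * t / q + 2 * ε / 3) := by
          rw [← Real.rpow_add hB0]
          congr 1
          ring
        rw [g2]
        ring

end Pool.Agent.Helper932MA
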