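import Mathlib
import Pool.Agent.Helper932MA.Core

/-!
# Integers of a number field near the multiples of a point of Minkowski space: the dimension
-/

set_option autoImplicit false

namespace Pool.Agent.Helper932MA

open NumberField IsDedekindDomain MeasureTheory Filter Topology
open scoped ENNReal NNReal Classical
open Pool.Agent.TH876.GR (counting Points)

variable {K : Type} [Field K] [NumberField K]

/-- the primes of a number field are countable -/
theorem countable_primes (K : Type) [Field K] [NumberField K] :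
    Countable (HeightOneSpectrum (𝓞 K)) := by
  have h0 : Countable K := (Module.finBasis ℚ K).equivFun.injective.countable
  have h1 : Countable (𝓞 K) :=
    Function.Injective.countable (f := fun x : 𝓞 K => (x : K)) RingOfIntegers.coe_injective
  have h2 : ∀ I : Ideal (𝓞 K), ∃ G : Finset (𝓞 K), Ideal.span (G : Set (𝓞 K)) = I := fun I =>
    (IsNoetherian.noetherian I)
  choose g hg using h2
  have h3 : Function.Injective g := by
    intro I J hIJ
    rw [← hg I, ← hg J, hIJ]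
  have h4 : Function.Injective fun v : HeightOneSpectrum (𝓞 K) => g v.asIdeal := by
    intro v w hvw
    exact HeightOneSpectrum.ext (h3 hvw)
  exact h4.countable

theorem countable_int (K : Type) [Field K] [NumberField K] : Countable (𝓞 K) := by
  have h0 : Countable K := (Module.finBasis ℚ K).equivFun.injective.countable
  exact Function.Injective.countable (f := fun x : 𝓞 K => (x : K)) RingOfIntegers.coe_injective

/-- the bad pairs for the point `x` -/
def Exc {q : ℕ} (a : Fin q → K) (lam : ℕ → ℝ) (τ t : ℝ) (S : Set (HeightOneSpectrum (𝓞 K)))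
    (A c : ℝ) (x : mixedEmbedding.mixedSpace K) : Set (ℕ × 𝓞 K) :=
  {p | ‖mixedEmbedding K (p.2 : K) - lam p.1 • x‖ ≤ A * lam p.1 ^ (1 - τ) ∧
    (∀ i, (p.2 : K) ≠ a i) ∧ counting S a (p.2 : K) / (Module.finrank ℚ K : ℝ) ≤
      t * (Height.logHeight₁ (p.2 : K) / (Module.finrank ℚ K : ℝ)) + c}

/-- the exceptional points of one level -/
def Bad {q : ℕ} (a : Fin q → K) (lam : ℕ → ℝ) (τ t : ℝ) : Set (mixedEmbedding.mixedSpace K) :=
  {x | ∃ S : Set (HeightOneSpectrum (𝓞 K)), S.Finite ∧ ∃ A c : ℝ, (Exc a lam τ t S A c x).Infinite}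

theorem bad_subset {q : ℕ} (a : Fin q → K) (lam : ℕ → ℝ) (h1 : ∀ n, 1 ≤ lam n) {τ t : ℝ}
    (hτ : 0 < τ) (ht : 0 ≤ t) : Bad a lam τ t ⊆
      ⋃ p : Finset (HeightOneSpectrum (𝓞 K)) × ℕ,
        {ξ | {i : Idx a lam t (p.1 : Set (HeightOneSpectrum (𝓞 K))) (2 * (p.2 : ℝ) + 1)
            ((Module.finrank ℚ K : ℝ) * p.2) |
          dist ((lam i.1.1)⁻¹ • mixedEmbedding K (i.1.2 : K)) ξ ≤
            ((p.2 : ℝ) + 1) * lam i.1.1 ^ (-τ)}.Infinite} := by
  rintro x ⟨S, hS, A, c, hinf⟩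
  obtain ⟨F, rfl⟩ := hS.exists_finset_coe
  obtain ⟨k, hk⟩ := exists_nat_ge (max ‖x‖ (max |A| |c|))
  have hkx : ‖x‖ ≤ k := (le_max_left _ _).trans hk
  have hkA : |A| ≤ k := ((le_max_left _ _).trans (le_max_right _ _)).trans hk
  have hkc : |c| ≤ k := ((le_max_right _ _).trans (le_max_right _ _)).trans hk
  rw [Set.mem_iUnion]
  refine ⟨⟨F, k⟩, ?_⟩
  have hk0 : (0 : ℝ) ≤ k := Nat.cast_nonneg k
  have hd0 := dpos K
  have key : ∀ p ∈ Exc a lam τ t (F : Set (HeightOneSpectrum (𝓞 K))) A c x,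
      (‖mixedEmbedding K (p.2 : K)‖ ≤ (2 * (k : ℝ) + 1) * lam p.1 ∧ (∀ i, (p.2 : K) ≠ a i) ∧
      counting (F : Set (HeightOneSpectrum (𝓞 K))) a (p.2 : K) ≤
        t * ((Module.finrank ℚ K : ℝ) * Real.log ((2 * (k : ℝ) + 1) * lam p.1)) +
          (Module.finrank ℚ K : ℝ) * k) ∧
      dist ((lam p.1)⁻¹ • mixedEmbedding K (p.2 : K)) x ≤ ((k : ℝ) + 1) * lam p.1 ^ (-τ) := by
    rintro ⟨n, y⟩ ⟨hy1, hy2, hy3⟩
    have hl1 := h1 n
    have hl0 : 0 < lam n := lt_of_lt_of_le one_pos hl1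
    simp only at hy1 hy2 hy3 ⊢
    have hpow : lam n ^ (1 - τ) = lam n * lam n ^ (-τ) := by
      rw [sub_eq_add_neg, Real.rpow_add hl0, Real.rpow_one]
    have hp1 : lam n ^ (-τ) ≤ 1 := Real.rpow_le_one_of_one_le_of_nonpos hl1 (by linarith)
    have hp0 : 0 < lam n ^ (-τ) := Real.rpow_pos_of_pos hl0 _
    have hA : A ≤ k := (le_abs_self A).trans hkA
    have hnorm : ‖mixedEmbedding K (y : K)‖ ≤ (2 * (k : ℝ) + 1) * lam n := by
      have e1 : ‖mixedEmbedding K (y : K)‖ ≤
          ‖mixedEmbedding K (y : K) - lam n • x‖ + ‖lam n • x‖ := by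
        have := norm_add_le (mixedEmbedding K (y : K) - lam n • x) (lam n • x)
        rwa [sub_add_cancel] at this
      have e2 : ‖lam n • x‖ = lam n * ‖x‖ := by
        rw [norm_smul, Real.norm_of_nonneg hl0.le]
      have e3 : A * lam n ^ (1 - τ) ≤ k * lam n := by
        rw [hpow]
        have e4 : lam n * lam n ^ (-τ) ≤ lam n * 1 := mul_le_mul_of_nonneg_left hp1 hl0.le
        have e5 : 0 < lam n * lam n ^ (-τ) := mul_pos hl0 hp0
        nlinarith
      rw [e2] at e1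
      have e6 : lam n * ‖x‖ ≤ lam n * k := mul_le_mul_of_nonneg_left hkx hl0.le
      nlinarith
    refine ⟨⟨hnorm, hy2, ?_⟩, ?_⟩
    · have hM : 1 ≤ (2 * (k : ℝ) + 1) * lam n := by nlinarith
      have e1 := height_le y hM hnorm
      rw [div_le_iff₀ hd0] at hy3
      have e2 : (t * (Height.logHeight₁ (y : K) / (Module.finrank ℚ K : ℝ)) + c) *
          (Module.finrank ℚ K : ℝ) = t * Height.logHeight₁ (y : K) +
            (Module.finrank ℚ K : ℝ) * c := by
        field_simp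
      rw [e2] at hy3
      have e3 : (Module.finrank ℚ K : ℝ) * c ≤ (Module.finrank ℚ K : ℝ) * k :=
        mul_le_mul_of_nonneg_left ((le_abs_self c).trans hkc) hd0.le
      have e4 := mul_le_mul_of_nonneg_left e1 ht
      linarith
    · have e1 : (lam n)⁻¹ • mixedEmbedding K (y : K) - x =
          (lam n)⁻¹ • (mixedEmbedding K (y : K) - lam n • x) := by
        rw [smul_sub, smul_smul, inv_mul_cancel₀ hl0.ne', one_smul]
      rw [dist_eq_norm, e1, norm_smul, norm_inv, Real.norm_of_nonneg hl0.le]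
      calc (lam n)⁻¹ * ‖mixedEmbedding K (y : K) - lam n • x‖
          ≤ (lam n)⁻¹ * (A * lam n ^ (1 - τ)) := mul_le_mul_of_nonneg_left hy1 (by positivity)
        _ = A * lam n ^ (-τ) := by
            rw [hpow]
            field_simp
        _ ≤ ((k : ℝ) + 1) * lam n ^ (-τ) := mul_le_mul_of_nonneg_right (by linarith) hp0.le
  -- transfer of infinity
  rw [Set.mem_ofPred_eq]
  intro hfin
  refine hinf ((hfin.image Subtype.val).subset ?_)
  intro p hp
  exact ⟨⟨p, (key p hp).1⟩, (key p hp).2, rfl⟩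

theorem dimH_bad (hc : HCount K) {q : ℕ} (hq : 2 ≤ q) (a : Fin q → K)
    (ha : Function.Injective a) (lam : ℕ → ℝ) (h1 : ∀ n, 1 ≤ lam n)
    (hlam : ∀ δ : ℝ, 0 < δ → Summable fun n => lam n ^ (-δ)) {τ t : ℝ} (hτ : 0 < τ) (ht : 0 ≤ t) :
    dimH (Bad a lam τ t) ≤ ENNReal.ofReal ((Module.finrank ℚ K : ℝ) * t / (q * τ)) := by
  have := countable_primes K
  have := countable_int K
  refine (dimH_mono (bad_subset a lam h1 hτ ht)).trans ?_
  rw [dimH_iUnion]
  refine iSup_le fun p => ?_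
  have hk0 : (0 : ℝ) ≤ p.2 := Nat.cast_nonneg _
  have hq0 : (0 : ℝ) < q := by exact_mod_cast (by omega : 0 < q)
  have hd0 := dpos K
  have key := Pool.Agent.R425.MK.dimH_balls
    (fun i : Idx a lam t (p.1 : Set (HeightOneSpectrum (𝓞 K))) (2 * (p.2 : ℝ) + 1)
      ((Module.finrank ℚ K : ℝ) * p.2) => (lam i.1.1)⁻¹ • mixedEmbedding K (i.1.2 : K))
    (fun i => lam i.1.1) (fun i => h1 _) (s := (Module.finrank ℚ K : ℝ) * t / q) (τ := τ)
    (A := (p.2 : ℝ) + 1) (by positivity) hτ (by positivity)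
    (idx_count hc hq a ha lam h1 hlam ht _ (Finset.finite_toSet _) (by linarith) (by positivity))
  refine key.trans (le_of_eq ?_)
  congr 1
  field_simp

/-- sets of dimension less than the degree are null sets -/
theorem null_of_dim {E : Set (mixedEmbedding.mixedSpace K)} {D : ℝ}
    (hD : D < (Module.finrank ℚ K : ℝ)) (hE : dimH E ≤ ENNReal.ofReal D) : volume E = 0 := by
  have h1 : (volume : Measure (mixedEmbedding.mixedSpace K)) ≪
      μH[(Module.finrank ℝ (mixedEmbedding.mixedSpace K) : ℝ)] :=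
    Measure.absolutelyContinuous_isAddHaarMeasure _ _
  have h2 : ((Module.finrank ℝ (mixedEmbedding.mixedSpace K) : ℝ)) =
      (((Module.finrank ℚ K : ℕ) : ℝ≥0) : ℝ) := by
    rw [mixedEmbedding.finrank]
    rfl
  rw [h2] at h1
  refine measure_zero_of_dimH_lt h1 (hE.trans_lt ?_)
  rw [← ENNReal.ofReal_coe_nnreal, ENNReal.ofReal_lt_ofReal_iff]
  · exact_mod_cast hD
  · have := dpos K
    exact_mod_cast this

theorem bad_mono {q : ℕ} (a : Fin q → K) (lam : ℕ → ℝ) {τ t t' : ℝ} (h : t ≤ t') :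
    Bad a lam τ t ⊆ Bad a lam τ t' := by
  rintro x ⟨S, hS, A, c, hinf⟩
  refine ⟨S, hS, A, c, hinf.mono ?_⟩
  rintro p ⟨h1, h2, h3⟩
  refine ⟨h1, h2, h3.trans ?_⟩
  have h4 : 0 ≤ Height.logHeight₁ (p.2 : K) / (Module.finrank ℚ K : ℝ) :=
    div_nonneg (Height.zero_le_logHeight₁ _) (dpos K).le
  have := mul_le_mul_of_nonneg_right h h4
  linarith

theorem ae_bad (hc : HCount K) {q : ℕ} (hq : 2 ≤ q) (a : Fin q → K)
    (ha : Function.Injective a) (lam : ℕ → ℝ) (h1 : ∀ n, 1 ≤ lam n)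
    (hlam : ∀ δ : ℝ, 0 < δ → Summable fun n => lam n ^ (-δ)) {τ : ℝ} (hτ : 0 < τ) :
    ∀ᵐ x : mixedEmbedding.mixedSpace K, ∀ t : ℝ, t < q * τ →
      ∀ S : Set (HeightOneSpectrum (𝓞 K)), S.Finite → ∀ A c : ℝ, (Exc a lam τ t S A c x).Finite := by
  have hq0 : (0 : ℝ) < q := by exact_mod_cast (by omega : 0 < q)
  have hd0 := dpos K
  have key : ∀ᵐ x : mixedEmbedding.mixedSpace K, ∀ s : ℚ, 0 ≤ (s : ℝ) → (s : ℝ) < q * τ →
      x ∉ Bad a lam τ (s : ℝ) := by
    rw [ae_all_iff]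
    intro s
    by_cases hs : 0 ≤ (s : ℝ) ∧ (s : ℝ) < q * τ
    · have h2 := null_of_dim (D := (Module.finrank ℚ K : ℝ) * s / (q * τ)) ?_
        (dimH_bad hc hq a ha lam h1 hlam hτ hs.1)
      · have h3 : ∀ᵐ x : mixedEmbedding.mixedSpace K, x ∉ Bad a lam τ (s : ℝ) := by
          rw [ae_iff]
          simpa using h2
        filter_upwards [h3] with x hx _ _
        exact hx
      · rw [div_lt_iff₀ (by positivity)]
        exact mul_lt_mul_of_pos_left hs.2 hd0
    · exact Eventually.of_forall fun x h3 h4 => absurd ⟨h3, h4⟩ hs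
  filter_upwards [key] with x hx t ht S hS A c
  obtain ⟨s, hs1, hs2⟩ := exists_rat_btwn (max_lt ht (by positivity : (0 : ℝ) < q * τ))
  have h4 := hx s ((le_max_right _ _).trans hs1.le) hs2
  by_contra hcon
  exact h4 (bad_mono a lam ((le_max_left _ _).trans hs1.le) ⟨S, hS, A, c, hcon⟩)

end Pool.Agent.Helper932MA
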